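import Pool.Agent.H93.OP.Table

/-!
# T1: specialisations of one point rings
-/

set_option autoImplicit false

open Polynomial

namespace Pool.H93.OP

theorem TR.dg_comb_le {k : Type} [Field k] {s : ℕ} {m : Fin s → ℕ}
    {P : Fin s → Fin s → Fin s → k[X]} (h : GoodTab k m P) (f : Fin s → k[X]) (N : ℕ) :
    TR.dg h (comb k (TR.T h) (TR.ee h) f) ≤ N ↔
      ∀ j r, (f j).coeff r ≠ 0 → s * r + m j ≤ N := by
  unfold TR.dg
  rw [bdg_le_iff]
  have h3 : ∀ x, (TR.bas h).repr (comb k (TR.T h) (TR.ee h) f) x = (f x.1).coeff x.2 := by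
    intro x
    rw [TR.bas_repr, TR.comb_eq]
  constructor
  · intro h1 j r h2
    exact h1 ⟨j, r⟩ (by rw [h3]; exact h2)
  · rintro h1 ⟨j, r⟩ h2
    rw [h3] at h2
    exact h1 j r h2

/-- Descent of a good table to a subring. -/
theorem GoodTab.descend {E : Type} [Field E] {s : ℕ} {m : Fin s → ℕ}
    {P : Fin s → Fin s → Fin s → E[X]} (h : GoodTab E m P) (Λ : Subring E)
    (h1 : ∀ i j l r, (P i j l).coeff r ∈ Λ) (h2 : ∀ i j l r, ((P i j l).coeff r)⁻¹ ∈ Λ) :
    ∃ PΛ : Fin s → Fin s → Fin s → Λ[X], (∀ i j l, (PΛ i j l).map Λ.subtype = P i j l) ∧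
      GoodTab Λ m PΛ := by
  have hex : ∀ i j l, ∃ q : Λ[X], q.map Λ.subtype = P i j l := by
    intro i j l
    have h3 : (P i j l) ∈ Polynomial.lifts Λ.subtype := by
      rw [Polynomial.lifts_iff_coeff_lifts]
      intro n
      exact ⟨⟨_, h1 i j l n⟩, rfl⟩
    exact (Polynomial.mem_lifts _).1 h3
  choose PΛ hP using hex
  have hinj : Function.Injective (Polynomial.map Λ.subtype) :=
    Polynomial.map_injective _ Subtype.val_injective
  have hc : ∀ i j l r, ((PΛ i j l).coeff r : E) = (P i j l).coeff r := by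
    intro i j l r
    rw [← hP, coeff_map]
    rfl
  refine ⟨PΛ, hP, h.pos, ?_, ?_, ?_, h.m0, h.inj, h.fin, ?_, ?_⟩
  · intro i j l
    apply hinj
    rw [hP, hP, h.comm]
  · intro i j k l
    apply hinj
    rw [Polynomial.map_sum, Polynomial.map_sum]
    simp only [Polynomial.map_mul, hP]
    exact h.assoc i j k l
  · intro j l
    apply hinj
    rw [hP, h.one]
    split_ifs <;> simp
  · intro i j l r h3
    apply h.le i j l r
    rw [← hc]
    exact fun h0 => h3 (Subtype.ext h0)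
  · intro i j
    obtain ⟨l, r, h3, h4⟩ := h.top i j
    refine ⟨l, r, h3, ?_⟩
    refine IsUnit.of_mul_eq_one ⟨((P i j l).coeff r)⁻¹, h2 i j l r⟩ ?_
    apply Subtype.ext
    change ((PΛ i j l).coeff r : E) * ((P i j l).coeff r)⁻¹ = 1
    rw [hc, mul_inv_cancel₀ h4.ne_zero]

/-- T1. Every one point ring over a field `E` is defined over a finitely generated ring and can be
specialised, with the same gaps and multiplication table. -/
theorem t1 {E R : Type} [Field E] [CommRing R] [IsDomain R] [Algebra E R] {dg : R → ℕ}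
    (h : OnePt E dg) (t : R) (ht : 0 < dg t) :
    ∃ (m : Fin (dg t) → ℕ) (e : Fin (dg t) → R)
      (P : Fin (dg t) → Fin (dg t) → Fin (dg t) → E[X]) (T : Finset E),
      HasTab E t e P ∧ e ⟨0, ht⟩ = 1 ∧
      (∀ f : Fin (dg t) → E[X], ∀ N : ℕ, dg (comb E t e f) ≤ N ↔
        ∀ j r, (f j).coeff r ≠ 0 → dg t * r + m j ≤ N) ∧
      ∀ (Λ : Subring E), (T : Set E) ⊆ Λ →
        ∃ PΛ : Fin (dg t) → Fin (dg t) → Fin (dg t) → Λ[X],
          (∀ i j l, (PΛ i j l).map Λ.subtype = P i j l) ∧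
          ∀ (k : Type) [Field k] (θ : Λ →+* k),
            ∃ (Rk : Type) (_ : CommRing Rk) (_ : IsDomain Rk) (_ : Algebra k Rk) (dgk : Rk → ℕ)
              (tk : Rk) (ek : Fin (dg t) → Rk), OnePt k dgk ∧ Gaps dgk = Gaps dg ∧
              HasTab k tk ek (fun i j l => (PΛ i j l).map θ) ∧ ek ⟨0, ht⟩ = 1 ∧
              (∀ f : Fin (dg t) → k[X], ∀ N : ℕ, dgk (comb k tk ek f) ≤ N ↔
                ∀ j r, (f j).coeff r ≠ 0 → dg t * r + m j ≤ N) ∧
              ∀ σ : k ≃+* k, (∀ a : Λ, σ (θ a) = θ a) → ∃ S : Rk ≃+* Rk,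
                (∀ (c : k) (a : Rk), S (c • a) = σ c • S a) ∧ (∀ a, dgk (S a) = dgk a) ∧
                S tk = tk ∧ ∀ j, S (ek j) = ek j := by
  classical
  obtain ⟨m, e, P, hG, hT, he0, _, hgaps, hcomb⟩ := exists_table h t ht
  let T0 : Finset E := Finset.univ.biUnion fun i => Finset.univ.biUnion fun j =>
    Finset.univ.biUnion fun l => (P i j l).coeffs
  have hT0 : ∀ i j l r, (P i j l).coeff r = 0 ∨ (P i j l).coeff r ∈ T0 := by
    intro i j l r
    by_cases h0 : (P i j l).coeff r = 0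
    · exact Or.inl h0
    · right
      simp only [T0, Finset.mem_biUnion, Finset.mem_univ, true_and]
      exact ⟨i, j, l, coeff_mem_coeffs h0⟩
  refine ⟨m, e, P, T0 ∪ T0.image (fun x => x⁻¹), hT, he0, hcomb, ?_⟩
  intro Λ hΛ
  have h1 : ∀ i j l r, (P i j l).coeff r ∈ Λ := by
    intro i j l r
    rcases hT0 i j l r with h0 | h0
    · rw [h0]
      exact Λ.zero_mem
    · exact hΛ (Finset.mem_coe.2 (Finset.mem_union_left _ h0))
  have h2 : ∀ i j l r, ((P i j l).coeff r)⁻¹ ∈ Λ := by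
    intro i j l r
    rcases hT0 i j l r with h0 | h0
    · rw [h0, inv_zero]
      exact Λ.zero_mem
    · exact hΛ (Finset.mem_coe.2 (Finset.mem_union_right _
        (Finset.mem_image_of_mem (fun x => x⁻¹) h0)))
  obtain ⟨PΛ, hP, hGΛ⟩ := hG.descend Λ h1 h2
  refine ⟨PΛ, hP, ?_⟩
  intro k _ θ
  have hGk := hGΛ.map θ
  refine ⟨TR m _ hGk, inferInstance, inferInstance, inferInstance, TR.dg hGk, TR.T hGk,
    TR.ee hGk, TR.onePt hGk, ?_, TR.hasTab, TR.ee_zero, TR.dg_comb_le hGk, ?_⟩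
  · rw [TR.gaps_dg, hgaps]
  · intro σ hσ
    have h3 : ∀ i j l, ((PΛ i j l).map θ).map (σ : k →+* k) = (PΛ i j l).map θ := by
      intro i j l
      rw [Polynomial.map_map]
      congr 1
      ext a
      exact hσ a
    exact ⟨TR.frob σ h3, TR.frob_smul σ h3, TR.frob_dg σ h3, TR.frob_T σ h3, TR.frob_ee σ h3⟩

end Pool.H93.OP
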