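import Mathlib

/-!
# One point rings: definitions

`OnePt k R dg`: the `k`-algebra `R` (a domain) has a degree `dg : R → ℕ` (minus the order at the only
pole), with leading coefficients in `k` and only finitely many gaps.
`HasTab k t e P`: `R` is free over `k[t]` with basis `e j`, and `e i * e j = ∑ P i j l (t) e l`.
-/

set_option autoImplicit false

open Polynomial

namespace Pool.H93.OP

/-- `dg` is a degree on the domain `R` over the field `k`, with leading coefficients in `k` and
finitely many gaps. Convention: `dg 0 = 0`. -/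
structure OnePt (k : Type) {R : Type} [Field k] [CommRing R] [IsDomain R] [Algebra k R]
    (dg : R → ℕ) : Prop where
  zero : dg 0 = 0
  mul : ∀ a b : R, a ≠ 0 → b ≠ 0 → dg (a * b) = dg a + dg b
  add : ∀ a b : R, dg (a + b) ≤ max (dg a) (dg b)
  smul : ∀ (c : k) (a : R), c ≠ 0 → dg (c • a) = dg a
  lead : ∀ a b : R, a ≠ 0 → b ≠ 0 → dg a = dg b → ∃ c : k, a = c • b ∨ dg (a - c • b) < dg b
  gaps : {m : ℕ | ∀ a : R, a ≠ 0 → dg a ≠ m}.Finite

/-- The set of gaps. -/
def Gaps {R : Type} [CommRing R] (dg : R → ℕ) : Set ℕ := {m : ℕ | ∀ a : R, a ≠ 0 → dg a ≠ m}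

/-- The element of `R` with the coordinates `f j ∈ k[X]` with respect to `e` over `k[t]`. -/
noncomputable def comb (k : Type) {R : Type} [Field k] [CommRing R] [Algebra k R] {s : ℕ} (t : R)
    (e : Fin s → R) (f : Fin s → k[X]) : R :=
  ∑ j, aeval t (f j) * e j

/-- `R` is free over `k[t]` with basis `e` and multiplication table `P`. -/
structure HasTab (k : Type) {R : Type} [Field k] [CommRing R] [Algebra k R] {s : ℕ} (t : R)
    (e : Fin s → R) (P : Fin s → Fin s → Fin s → k[X]) : Prop where
  bij : Function.Bijective (comb k t e)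
  mul : ∀ i j, e i * e j = comb k t e (P i j)

/-- The certificate: `φ` is, up to `l`-th powers, an `l`-th power of an ideal but `l ∤` its root:
`η ^ l = φ' * φ ^ (l - 1)`, `A * φ + B * φ' = 1`, and `dg φ = l * d` for a gap `d`. -/
def Cert {R : Type} [CommRing R] (dg : R → ℕ) (l : ℕ) (φ φ' η A B : R) : Prop :=
  η ^ l = φ' * φ ^ (l - 1) ∧ A * φ + B * φ' = 1 ∧ ∃ d ∈ Gaps dg, dg φ = l * d

end Pool.H93.OP
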