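import Pool.Agent.H93.OP.Fin
import Pool.Agent.H71.AS.Defs

/-!
# T1 in the form used for characteristic `p`
-/

set_option autoImplicit false

open Polynomial

namespace Pool.H93.OP

open Pool.Agent.H71.AS

/-- From the last clause of `t1` to a Frobenius structure. -/
theorem nonempty_fr {k Rk Λ : Type} [Field k] [CommRing Λ] [CommRing Rk] [Algebra k Rk] {dgk : Rk → ℕ}
    {θ : Λ →+* k} (p : ℕ) [Fact p.Prime] [CharP k p] [IsAlgClosed k] (n : ℕ)
    (h : ∀ σ : k ≃+* k, (∀ a : Λ, σ (θ a) = θ a) → ∃ S : Rk ≃+* Rk,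
      (∀ (c : k) (a : Rk), S (c • a) = σ c • S a) ∧ (∀ a, dgk (S a) = dgk a))
    (hn : ∀ a : Λ, θ a ^ p ^ n = θ a) : Nonempty (Fr k dgk (p ^ n)) := by
  have : ExpChar k p := ExpChar.prime Fact.out
  have : PerfectRing k p := PerfectField.toPerfectRing p
  obtain ⟨S, h1, h2⟩ := h (iterateFrobeniusEquiv k p n) (fun a => by
    rw [iterateFrobeniusEquiv_apply, iterateFrobenius_def, hn])
  refine ⟨⟨S, ?_, h2⟩⟩
  intro c a
  rw [h1, iterateFrobeniusEquiv_apply, iterateFrobenius_def]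

end Pool.H93.OP
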