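import Pool.Agent.H93.OP.TDeg

/-!
# The Apery basis of a one point ring
-/

set_option autoImplicit false

open Polynomial

namespace Pool.H93.OP

variable {k R : Type} [Field k] [CommRing R] [IsDomain R] [Algebra k R] {dg : R → ℕ}

namespace OnePt

theorem dg_one (h : OnePt k dg) : dg 1 = 0 := by
  have h1 := h.mul 1 1 one_ne_zero one_ne_zero
  rw [mul_one] at h1
  omega

theorem dg_pow (h : OnePt k dg) (a : R) (ha : a ≠ 0) (n : ℕ) : dg (a ^ n) = dg a * n := by
  induction n with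
  | zero => rw [pow_zero, mul_zero, h.dg_one]
  | succ n ih => rw [pow_succ, h.mul _ _ (pow_ne_zero n ha) ha, ih, mul_add, mul_one]

theorem dg_neg (h : OnePt k dg) (a : R) : dg (-a) = dg a := by
  have h1 := h.smul (-1) a (by norm_num)
  rwa [neg_smul, one_smul] at h1

theorem add_lt (h : OnePt k dg) {b c : R} (hlt : dg b < dg c) :
    b + c ≠ 0 ∧ dg (b + c) = dg c := by
  have h1 : b + c ≠ 0 := by
    intro h0
    have h2 : c = -b := by
      rw [eq_neg_iff_add_eq_zero, add_comm]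
      exact h0
    rw [h2, h.dg_neg] at hlt
    exact lt_irrefl _ hlt
  refine ⟨h1, ?_⟩
  have h2 := h.add b c
  have h3 := h.add (b + c) (-b)
  have h4 : b + c + -b = c := by ring
  rw [h4, h.dg_neg] at h3
  omega

theorem add_of_ne (h : OnePt k dg) {b c : R} (hne : dg b ≠ dg c) :
    b + c ≠ 0 ∧ dg (b + c) = max (dg b) (dg c) := by
  rcases lt_or_gt_of_ne hne with h1 | h1
  · have h2 := h.add_lt h1
    exact ⟨h2.1, by rw [h2.2, max_eq_right h1.le]⟩
  · have h2 := h.add_lt h1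
    rw [add_comm b c]
    exact ⟨h2.1, by rw [h2.2, max_eq_left h1.le]⟩

theorem sum_dg (h : OnePt k dg) {ι : Type} (w : ι → ℕ) (hw : Function.Injective w) (a : ι → R)
    (S : Finset ι) (ha : ∀ x ∈ S, a x ≠ 0 ∧ dg (a x) = w x) (hS : S.Nonempty) :
    (∑ x ∈ S, a x) ≠ 0 ∧ dg (∑ x ∈ S, a x) = S.sup w := by
  classical
  induction S using Finset.induction_on with
  | empty => exact absurd hS Finset.not_nonempty_empty
  | insert x S hx ih =>
    rw [Finset.sum_insert hx, Finset.sup_insert]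
    have h1 := ha x (Finset.mem_insert_self x S)
    rcases S.eq_empty_or_nonempty with h2 | h2
    · subst h2
      rw [Finset.sum_empty, add_zero, Finset.sup_empty]
      exact ⟨h1.1, by rw [h1.2]; simp⟩
    · have h3 := ih (fun y hy => ha y (Finset.mem_insert_of_mem hy)) h2
      obtain ⟨y, h4, h5⟩ := Finset.exists_mem_eq_sup S h2 w
      have h6 : dg (a x) ≠ dg (∑ x ∈ S, a x) := by
        rw [h1.2, h3.2, h5]
        intro h7
        rw [hw h7] at hx
        exact hx h4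
      have h7 := h.add_of_ne h6
      refine ⟨h7.1, ?_⟩
      rw [h7.2, h1.2, h3.2]

end OnePt

/-- The Apery system. -/
theorem exists_apery (h : OnePt k dg) (t : R) (ht : 0 < dg t) :
    ∃ (m : Fin (dg t) → ℕ) (e : Fin (dg t) → R), (∀ j, m j % dg t = j) ∧
      (∀ j, e j ≠ 0 ∧ dg (e j) = m j) ∧ e ⟨0, ht⟩ = 1 ∧
      (∀ (j : Fin (dg t)) (a : R), a ≠ 0 → dg a % dg t = (j : ℕ) → m j ≤ dg a) := by
  classical
  have h1 : ∀ j : Fin (dg t), ∃ n : ℕ, (∃ a : R, a ≠ 0 ∧ dg a = n) ∧ n % dg t = j := by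
    intro j
    obtain ⟨B, hB⟩ := h.gaps.bddAbove
    have h2 : dg t * (B + 1) + j ∉ {m : ℕ | ∀ a : R, a ≠ 0 → dg a ≠ m} := by
      intro h3
      have h4 := hB h3
      have h5 : B + 1 ≤ dg t * (B + 1) := Nat.le_mul_of_pos_left _ ht
      omega
    simp only [Set.mem_ofPred_eq, not_forall, not_not] at h2
    obtain ⟨a, ha, h3⟩ := h2
    refine ⟨dg t * (B + 1) + j, ⟨a, ha, h3⟩, ?_⟩
    rw [Nat.mul_add_mod, Nat.mod_eq_of_lt j.2]
  have h2 : ∀ j : Fin (dg t), ∃ (n : ℕ) (a : R), a ≠ 0 ∧ dg a = n ∧ n % dg t = j ∧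
      (j = ⟨0, ht⟩ → a = 1) ∧ ∀ b : R, b ≠ 0 → dg b % dg t = j → n ≤ dg b := by
    intro j
    by_cases hj : j = ⟨0, ht⟩
    · refine ⟨0, 1, one_ne_zero, h.dg_one, ?_, fun _ => rfl, fun _ _ _ => Nat.zero_le _⟩
      rw [hj]
      exact Nat.zero_mod _
    · obtain ⟨⟨a, ha, h3⟩, h4⟩ := Nat.find_spec (h1 j)
      refine ⟨Nat.find (h1 j), a, ha, h3, h4, fun h5 => absurd h5 hj, fun b hb h5 => ?_⟩
      exact Nat.find_min' (h1 j) ⟨⟨b, hb, rfl⟩, h5⟩
  choose m e h3 using h2
  exact ⟨m, e, fun j => (h3 j).2.2.1, fun j => ⟨(h3 j).1, (h3 j).2.1⟩,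
    (h3 ⟨0, ht⟩).2.2.2.1 rfl, fun j => (h3 j).2.2.2.2⟩

/-- The monomials in `t` and the Apery system form a basis, and the degree is read off from it. -/
theorem exists_basis (h : OnePt k dg) (t : R) (ht : 0 < dg t) :
    ∃ (m : Fin (dg t) → ℕ) (e : Fin (dg t) → R)
      (b : Module.Basis (Σ _ : Fin (dg t), ℕ) k R), m ⟨0, ht⟩ = 0 ∧ e ⟨0, ht⟩ = 1 ∧
      (∀ x, b x = t ^ x.2 * e x.1) ∧ Function.Injective (TR.wt m) ∧
      (∀ a : R, dg a = bdg b (TR.wt m) a) := by
  obtain ⟨m, e, h1, h2, h3, h4⟩ := exists_apery h t ht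
  have ht0 : t ≠ 0 := by
    rintro rfl
    rw [h.zero] at ht
    exact lt_irrefl _ ht
  have hb : ∀ x : Σ _ : Fin (dg t), ℕ, t ^ x.2 * e x.1 ≠ 0 ∧
      dg (t ^ x.2 * e x.1) = TR.wt m x := by
    intro x
    refine ⟨mul_ne_zero (pow_ne_zero _ ht0) (h2 x.1).1, ?_⟩
    rw [h.mul _ _ (pow_ne_zero _ ht0) (h2 x.1).1, h.dg_pow t ht0, (h2 x.1).2]
    rfl
  have hinj : Function.Injective (TR.wt m) := by
    rintro ⟨j, i⟩ ⟨j', i'⟩ h5
    have h6 : dg t * i + m j = dg t * i' + m j' := h5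
    have h7 : j = j' := by
      have h8 := congrArg (fun n => n % dg t) h6
      simp only [Nat.mul_add_mod] at h8
      rw [h1, h1] at h8
      exact Fin.ext h8
    subst h7
    have h8 : dg t * i = dg t * i' := by omega
    have h9 := Nat.eq_of_mul_eq_mul_left ht h8
    subst h9
    rfl
  have key : ∀ c : (Σ _ : Fin (dg t), ℕ) →₀ k, c ≠ 0 →
      (∑ x ∈ c.support, c x • (t ^ x.2 * e x.1)) ≠ 0 ∧
      dg (∑ x ∈ c.support, c x • (t ^ x.2 * e x.1)) = c.support.sup (TR.wt m) := by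
    intro c hc
    refine h.sum_dg (TR.wt m) hinj (fun x => c x • (t ^ x.2 * e x.1)) c.support ?_
      (Finsupp.support_nonempty_iff.2 hc)
    intro x hx
    have h5 := Finsupp.mem_support_iff.1 hx
    exact ⟨smul_ne_zero h5 (hb x).1, by rw [h.smul _ _ h5, (hb x).2]⟩
  have hli : LinearIndependent k (fun x : Σ _ : Fin (dg t), ℕ => t ^ x.2 * e x.1) := by
    rw [linearIndependent_iff]
    intro c hc
    by_contra h5
    apply (key c h5).1
    rw [Finsupp.linearCombination_apply, Finsupp.sum] at hc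
    exact hc
  have hsp : ⊤ ≤ Submodule.span k (Set.range
      (fun x : Σ _ : Fin (dg t), ℕ => t ^ x.2 * e x.1)) := by
    intro a _
    induction hn : dg a using Nat.strong_induction_on generalizing a with
    | _ n ih =>
      by_cases ha : a = 0
      · rw [ha]
        exact Submodule.zero_mem _
      · have h5 : dg a % dg t < dg t := Nat.mod_lt _ ht
        have h6 := h4 ⟨dg a % dg t, h5⟩ a ha rfl
        have h7 := h1 ⟨dg a % dg t, h5⟩
        have h8 : ∃ i, dg a = dg t * i + m ⟨dg a % dg t, h5⟩ := by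
          have h9 : dg t ∣ dg a - m ⟨dg a % dg t, h5⟩ :=
            (Nat.modEq_iff_dvd' h6).1 (by rw [Nat.ModEq, h7])
          obtain ⟨i, hi⟩ := h9
          exact ⟨i, by omega⟩
        obtain ⟨i, hi⟩ := h8
        have h9 := hb ⟨⟨dg a % dg t, h5⟩, i⟩
        have h10 : dg a = dg (t ^ i * e ⟨dg a % dg t, h5⟩) := hi.trans h9.2.symm
        have h11 : t ^ i * e ⟨dg a % dg t, h5⟩ ∈ Submodule.span k (Set.range
            (fun x : Σ _ : Fin (dg t), ℕ => t ^ x.2 * e x.1)) :=
          Submodule.subset_span ⟨⟨⟨dg a % dg t, h5⟩, i⟩, rfl⟩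
        obtain ⟨c, h12 | h12⟩ := h.lead a _ ha h9.1 h10
        · rw [h12]
          exact Submodule.smul_mem _ _ h11
        · have h13 := ih (dg (a - c • (t ^ i * e ⟨dg a % dg t, h5⟩)))
            (by rw [← hn]; exact lt_of_lt_of_eq h12 h10.symm) trivial rfl
          have h14 := Submodule.add_mem _ h13 (Submodule.smul_mem _ c h11)
          rw [sub_add_cancel] at h14
          exact h14
  refine ⟨m, e, Module.Basis.mk hli hsp, ?_, h3, fun x => Module.Basis.mk_apply hli hsp x, hinj, ?_⟩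
  · have h5 := (h2 ⟨0, ht⟩).2
    rw [h3, h.dg_one] at h5
    exact h5.symm
  · intro a
    by_cases ha : a = 0
    · rw [ha, bdg_zero, h.zero]
    · have h5 := key ((Module.Basis.mk hli hsp).repr a)
        (fun h0 => ha ((Module.Basis.mk hli hsp).repr.map_eq_zero_iff.1 h0))
      have h6 : (∑ x ∈ ((Module.Basis.mk hli hsp).repr a).support,
          ((Module.Basis.mk hli hsp).repr a) x • (t ^ x.2 * e x.1)) = a := by
        have h7 := (Module.Basis.mk hli hsp).linearCombination_repr a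
        rw [Finsupp.linearCombination_apply, Finsupp.sum] at h7
        conv_rhs => rw [← h7]
        refine Finset.sum_congr rfl fun x _ => ?_
        rw [Module.Basis.mk_apply]
      rw [h6] at h5
      exact h5.2

end Pool.H93.OP
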