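import Pool.Agent.H93.OP.Defs

/-!
# The degree of a good basis
-/

set_option autoImplicit false

namespace Pool.H93.OP

variable {k R ι : Type} [Field k] [CommRing R] [Algebra k R]

/-- The degree defined by weights of a basis. -/
noncomputable def bdg (b : Module.Basis ι k R) (w : ι → ℕ) (a : R) : ℕ := (b.repr a).support.sup w

/-- Products of basis vectors have leading terms. -/
structure GoodBasis (b : Module.Basis ι k R) (w : ι → ℕ) : Prop where
  inj : Function.Injective w
  fin : (Set.range w)ᶜ.Finite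
  le : ∀ α β δ, b.repr (b α * b β) δ ≠ 0 → w δ ≤ w α + w β
  top : ∀ α β, ∃ γ, w γ = w α + w β ∧ b.repr (b α * b β) γ ≠ 0

variable {b : Module.Basis ι k R} {w : ι → ℕ}

theorem bdg_le_iff (a : R) (N : ℕ) : bdg b w a ≤ N ↔ ∀ δ, b.repr a δ ≠ 0 → w δ ≤ N := by
  unfold bdg
  rw [Finset.sup_le_iff]
  simp only [Finsupp.mem_support_iff]

theorem le_bdg (a : R) (δ : ι) (h : b.repr a δ ≠ 0) : w δ ≤ bdg b w a :=
  (bdg_le_iff a _).1 le_rfl δ h

theorem exists_top (a : R) (ha : a ≠ 0) : ∃ γ, w γ = bdg b w a ∧ b.repr a γ ≠ 0 := by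
  have h1 : (b.repr a).support.Nonempty := by
    rw [Finsupp.support_nonempty_iff]
    intro h
    exact ha (b.repr.map_eq_zero_iff.1 h)
  obtain ⟨γ, h2, h3⟩ := Finset.exists_mem_eq_sup _ h1 w
  exact ⟨γ, h3.symm, Finsupp.mem_support_iff.1 h2⟩

theorem bdg_zero : bdg b w (0 : R) = 0 := by
  unfold bdg
  simp

theorem repr_mul (a a' : R) (δ : ι) : b.repr (a * a') δ =
    ∑ α ∈ (b.repr a).support, ∑ β ∈ (b.repr a').support,
      b.repr a α * b.repr a' β * b.repr (b α * b β) δ := by
  have h1 : a = ∑ α ∈ (b.repr a).support, b.repr a α • b α := by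
    have := b.linearCombination_repr a
    rw [Finsupp.linearCombination_apply, Finsupp.sum] at this
    exact this.symm
  have h2 : a' = ∑ α ∈ (b.repr a').support, b.repr a' α • b α := by
    have := b.linearCombination_repr a'
    rw [Finsupp.linearCombination_apply, Finsupp.sum] at this
    exact this.symm
  have h3 : a * a' = ∑ α ∈ (b.repr a).support, ∑ β ∈ (b.repr a').support,
      (b.repr a α * b.repr a' β) • (b α * b β) := by
    conv_lhs => rw [h1, h2]
    rw [Finset.sum_mul]
    refine Finset.sum_congr rfl fun α _ => ?_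
    rw [Finset.mul_sum]
    refine Finset.sum_congr rfl fun β _ => ?_
    rw [smul_mul_smul_comm]
  conv_lhs => rw [h3]
  simp only [map_sum, Finsupp.finsetSum_apply, map_smul, Finsupp.smul_apply, smul_eq_mul]

theorem repr_mul_top (h : GoodBasis b w) {a a' : R} {α β γ : ι} (h1 : w α = bdg b w a)
    (h2 : w β = bdg b w a') (h3 : w γ = w α + w β) :
    b.repr (a * a') γ = b.repr a α * b.repr a' β * b.repr (b α * b β) γ := by
  have key : ∀ α', b.repr a α' ≠ 0 → ∀ β', b.repr a' β' ≠ 0 →
      b.repr (b α' * b β') γ ≠ 0 → α' = α ∧ β' = β := by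
    intro α' ha β' hb hc
    have h4 := h.le _ _ _ hc
    have h5 := le_bdg (w := w) a α' ha
    have h6 := le_bdg (w := w) a' β' hb
    exact ⟨h.inj (by omega), h.inj (by omega)⟩
  rw [repr_mul, Finset.sum_eq_single α]
  · rw [Finset.sum_eq_single β]
    · intro β' hb hne
      by_contra hc
      have hc1 : b.repr (b α * b β') γ ≠ 0 := fun h0 => hc (by rw [h0, mul_zero])
      have hc2 : b.repr a α ≠ 0 := fun h0 => hc (by rw [h0, zero_mul, zero_mul])
      exact hne (key α hc2 β' (Finsupp.mem_support_iff.1 hb) hc1).2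
    · intro hb
      rw [Finsupp.notMem_support_iff.1 hb]
      ring
  · intro α' ha hne
    refine Finset.sum_eq_zero fun β' hb => ?_
    by_contra hc
    have hc1 : b.repr (b α' * b β') γ ≠ 0 := fun h0 => hc (by rw [h0, mul_zero])
    exact hne (key α' (Finsupp.mem_support_iff.1 ha) β' (Finsupp.mem_support_iff.1 hb) hc1).1
  · intro ha
    rw [Finsupp.notMem_support_iff.1 ha]
    simp

theorem bdg_mul_le (h : GoodBasis b w) (a a' : R) : bdg b w (a * a') ≤ bdg b w a + bdg b w a' := by
  rw [bdg_le_iff]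
  intro δ hδ
  rw [repr_mul] at hδ
  obtain ⟨α, h1, h2⟩ := Finset.exists_ne_zero_of_sum_ne_zero hδ
  obtain ⟨β, h3, h4⟩ := Finset.exists_ne_zero_of_sum_ne_zero h2
  have h5 := h.le α β δ (fun h0 => h4 (by rw [h0, mul_zero]))
  have h6 := le_bdg (w := w) a α (Finsupp.mem_support_iff.1 h1)
  have h7 := le_bdg (w := w) a' β (Finsupp.mem_support_iff.1 h3)
  omega

theorem mul_top (h : GoodBasis b w) {a a' : R} (ha : a ≠ 0) (ha' : a' ≠ 0) :
    ∃ γ, w γ = bdg b w a + bdg b w a' ∧ b.repr (a * a') γ ≠ 0 := by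
  obtain ⟨α, h1, h2⟩ := exists_top (b := b) (w := w) a ha
  obtain ⟨β, h3, h4⟩ := exists_top (b := b) (w := w) a' ha'
  obtain ⟨γ, h5, h6⟩ := h.top α β
  refine ⟨γ, by omega, ?_⟩
  rw [repr_mul_top h h1 h3 h5]
  exact mul_ne_zero (mul_ne_zero h2 h4) h6

theorem mul_ne (h : GoodBasis b w) {a a' : R} (ha : a ≠ 0) (ha' : a' ≠ 0) : a * a' ≠ 0 := by
  obtain ⟨γ, _, h2⟩ := mul_top h ha ha'
  intro h0
  apply h2
  rw [h0]
  simp

theorem bdg_mul (h : GoodBasis b w) {a a' : R} (ha : a ≠ 0) (ha' : a' ≠ 0) :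
    bdg b w (a * a') = bdg b w a + bdg b w a' := by
  apply le_antisymm (bdg_mul_le h a a')
  obtain ⟨γ, h1, h2⟩ := mul_top h ha ha'
  rw [← h1]
  exact le_bdg _ _ h2

theorem bdg_add (a a' : R) : bdg b w (a + a') ≤ max (bdg b w a) (bdg b w a') := by
  rw [bdg_le_iff]
  intro δ hδ
  by_cases h1 : b.repr a δ = 0
  · have h2 : b.repr a' δ ≠ 0 := by
      intro h2
      apply hδ
      rw [map_add, Finsupp.add_apply, h1, h2, add_zero]
    exact (le_bdg _ _ h2).trans (le_max_right _ _)
  · exact (le_bdg _ _ h1).trans (le_max_left _ _)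

theorem bdg_smul (c : k) (a : R) (hc : c ≠ 0) : bdg b w (c • a) = bdg b w a := by
  unfold bdg
  rw [map_smul, Finsupp.support_smul_eq hc]

theorem gaps_bdg (h : GoodBasis b w) : Gaps (bdg b w) = (Set.range w)ᶜ := by
  ext n
  constructor
  · rintro h1 ⟨γ, rfl⟩
    refine h1 (b γ) ?_ ?_
    · intro h0
      have h2 := b.repr_self γ
      rw [h0, map_zero] at h2
      have h3 := DFunLike.congr_fun h2 γ
      rw [Finsupp.single_eq_same] at h3
      exact zero_ne_one h3
    · unfold bdg
      rw [b.repr_self, Finsupp.support_single _ one_ne_zero]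
      simp
  · intro h1 a ha h2
    obtain ⟨γ, h3, _⟩ := exists_top (b := b) (w := w) a ha
    exact h1 ⟨γ, h3.trans h2⟩

theorem bdg_basis (γ : ι) : bdg b w (b γ) = w γ := by
  unfold bdg
  rw [b.repr_self, Finsupp.support_single _ one_ne_zero]
  simp

/-- The degree of a good basis is a one point degree. -/
theorem isDomain_of_goodBasis [Nontrivial R] (h : GoodBasis b w) : IsDomain R := by
  have : NoZeroDivisors R := ⟨fun {a a'} h0 => by
    by_contra hc
    rw [not_or] at hc
    exact mul_ne h hc.1 hc.2 h0⟩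
  exact IsDomain.mk

theorem onePt_of_goodBasis [IsDomain R] (h : GoodBasis b w) : OnePt k (bdg b w) where
  zero := bdg_zero
  mul _ _ ha ha' := bdg_mul h ha ha'
  add := bdg_add
  smul := bdg_smul
  lead a a' ha ha' he := by
    obtain ⟨α, h1, h2⟩ := exists_top (b := b) (w := w) a ha
    obtain ⟨β, h3, h4⟩ := exists_top (b := b) (w := w) a' ha'
    have h5 : α = β := h.inj (by omega)
    subst h5
    refine ⟨b.repr a α / b.repr a' α, ?_⟩
    by_cases h6 : a - (b.repr a α / b.repr a' α) • a' = 0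
    · left
      exact sub_eq_zero.1 h6
    · right
      obtain ⟨δ, h7, h8⟩ := exists_top (b := b) (w := w) _ h6
      rw [← h7]
      have h9 : δ ≠ α := by
        rintro rfl
        apply h8
        rw [map_sub, map_smul, Finsupp.sub_apply, Finsupp.smul_apply, smul_eq_mul,
          div_mul_cancel₀ _ h4, sub_self]
      have h10 : w δ ≤ bdg b w a' := by
        by_cases h11 : b.repr a δ = 0
        · refine le_bdg _ _ ?_
          intro h12
          apply h8
          rw [map_sub, map_smul, Finsupp.sub_apply, Finsupp.smul_apply, h11, h12, smul_zero,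
            sub_zero]
        · rw [← he]
          exact le_bdg _ _ h11
      rcases lt_or_eq_of_le h10 with h11 | h11
      · exact h11
      · exact absurd (h.inj (by omega)) h9
  gaps := by
    have := gaps_bdg h
    unfold Gaps at this
    rw [this]
    exact h.fin

end Pool.H93.OP
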