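import Pool.Agent.H93.OP.Defs

/-!
# Multiplication tables
-/

set_option autoImplicit false

open Polynomial

namespace Pool.H93.OP

/-- A good multiplication table over the commutative ring `A`: commutative, associative, with unit
`e 0`, and with leading terms (weights `s * r + m l`) which are units. -/
structure GoodTab (A : Type) [CommRing A] {s : ℕ} (m : Fin s → ℕ)
    (P : Fin s → Fin s → Fin s → A[X]) : Prop where
  pos : 0 < s
  comm : ∀ i j l, P i j l = P j i l
  assoc : ∀ i j k l, ∑ u, P i j u * P u k l = ∑ u, P j k u * P i u l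
  one : ∀ j l, P ⟨0, pos⟩ j l = if j = l then 1 else 0
  m0 : m ⟨0, pos⟩ = 0
  inj : ∀ i j i' j', s * i + m j = s * i' + m j' → i = i' ∧ j = j'
  fin : {n : ℕ | ∀ i j, n ≠ s * i + m j}.Finite
  le : ∀ i j l r, (P i j l).coeff r ≠ 0 → s * r + m l ≤ m i + m j
  top : ∀ i j, ∃ l r, s * r + m l = m i + m j ∧ IsUnit ((P i j l).coeff r)

theorem GoodTab.map {A B : Type} [CommRing A] [CommRing B] {s : ℕ} {m : Fin s → ℕ}
    {P : Fin s → Fin s → Fin s → A[X]} (h : GoodTab A m P) (f : A →+* B) :
    GoodTab B m (fun i j l => (P i j l).map f) where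
  pos := h.pos
  comm i j l := by rw [h.comm]
  assoc i j k l := by
    have := congrArg (Polynomial.map f) (h.assoc i j k l)
    simpa only [Polynomial.map_sum, Polynomial.map_mul] using this
  one j l := by
    rw [h.one]
    split_ifs <;> simp
  m0 := h.m0
  inj := h.inj
  fin := h.fin
  le i j l r hr := by
    apply h.le i j l r
    intro h0
    apply hr
    rw [coeff_map, h0, map_zero]
  top i j := by
    obtain ⟨l, r, h1, h2⟩ := h.top i j
    refine ⟨l, r, h1, ?_⟩
    rw [coeff_map]
    exact h2.map f

end Pool.H93.OP
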