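import Pool.Agent.H93.OP.TRing
import Pool.Agent.H93.OP.Gen

/-!
# The degree on the ring of a table
-/

set_option autoImplicit false

open Polynomial

namespace Pool.H93.OP.TR

variable {k : Type} [Field k] {s : ℕ} {m : Fin s → ℕ} {P : Fin s → Fin s → Fin s → k[X]}
  {h : GoodTab k m P}

/-- The vector with one coordinate. -/
noncomputable def sgl (h : GoodTab k m P) (j : Fin s) (q : k[X]) : TR m P h :=
  (Pi.single j q : Fin s → k[X])

theorem sgl_apply (j l : Fin s) (q : k[X]) : sgl h j q l = if l = j then q else 0 := by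
  change (Pi.single j q : Fin s → k[X]) l = _
  rw [Pi.single_apply]

/-- The variable. -/
noncomputable def T (h : GoodTab k m P) : TR m P h := sgl h ⟨0, h.pos⟩ X

/-- The basis over the polynomials. -/
noncomputable def ee (h : GoodTab k m P) (j : Fin s) : TR m P h := sgl h j 1

theorem smulX_apply (q : k[X]) (f : TR m P h) (l : Fin s) : (q • f) l = q * f l := rfl

theorem T_mul (f : TR m P h) : T h * f = (X : k[X]) • f := by
  funext l
  rw [mul_apply, Finset.sum_eq_single ⟨0, h.pos⟩]
  · rw [Finset.sum_eq_single l]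
    · rw [h.one, if_pos rfl, mul_one, smulX_apply]
      have h1 : T h ⟨0, h.pos⟩ = X := (sgl_apply _ _ _).trans (if_pos rfl)
      rw [h1]
    · intro j _ hj
      rw [h.one, if_neg hj, mul_zero]
    · intro hl
      exact absurd (Finset.mem_univ l) hl
  · intro i _ hi
    have h1 : T h i = 0 := (sgl_apply _ _ _).trans (if_neg hi)
    rw [h1]
    simp
  · intro hl
    exact absurd (Finset.mem_univ _) hl

theorem aeval_T_mul (q : k[X]) (f : TR m P h) : aeval (T h) q * f = q • f := by
  induction q using Polynomial.induction_on' with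
  | add p q hp hq => rw [map_add, add_mul, hp, hq, add_smul]
  | monomial n a =>
    induction n with
    | zero =>
      rw [monomial_zero_left, aeval_C, ← Algebra.smul_def]
      funext l
      rw [smul_apply, smulX_apply, smul_eq_C_mul]
    | succ n ih =>
      have h1 : (monomial (n + 1) a : k[X]) = X * monomial n a := by
        rw [X_mul_monomial]
      rw [h1, map_mul, aeval_X, mul_assoc, ih, T_mul, mul_smul]

theorem comb_eq (f : Fin s → k[X]) : comb k (T h) (ee h) f = (f : TR m P h) := by
  unfold comb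
  simp only [aeval_T_mul]
  funext l
  have h1 : ∀ (S : Finset (Fin s)), (∑ j ∈ S, f j • ee h j) l = ∑ j ∈ S, (f j • ee h j) l := by
    intro S
    induction S using Finset.induction_on with
    | empty => simp [zero_apply]
    | insert a S ha ih => rw [Finset.sum_insert ha, Finset.sum_insert ha, add_apply, ih]
  rw [h1, Finset.sum_eq_single l]
  · rw [smulX_apply]
    have h2 : ee h l l = 1 := (sgl_apply _ _ _).trans (if_pos rfl)
    rw [h2, mul_one]
  · intro j _ hj
    rw [smulX_apply]
    have h2 : ee h j l = 0 := (sgl_apply _ _ _).trans (if_neg (Ne.symm hj))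
    rw [h2, mul_zero]
  · intro hl
    exact absurd (Finset.mem_univ l) hl

theorem ee_mul (i j : Fin s) : ee h i * ee h j = (P i j : TR m P h) := by
  funext l
  rw [mul_apply, Finset.sum_eq_single i]
  · rw [Finset.sum_eq_single j]
    · have h2 : ee h i i = 1 := (sgl_apply _ _ _).trans (if_pos rfl)
      have h3 : ee h j j = 1 := (sgl_apply _ _ _).trans (if_pos rfl)
      rw [h2, h3, one_mul, one_mul]
    · intro b _ hb
      have h2 : ee h j b = 0 := (sgl_apply _ _ _).trans (if_neg hb)
      rw [h2]
      ring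
    · intro hl
      exact absurd (Finset.mem_univ _) hl
  · intro a _ ha
    have h2 : ee h i a = 0 := (sgl_apply _ _ _).trans (if_neg ha)
    rw [h2]
    simp
  · intro hl
    exact absurd (Finset.mem_univ _) hl

theorem hasTab : HasTab k (T h) (ee h) P where
  bij := by
    have h1 : comb k (T h) (ee h) = (fun f : Fin s → k[X] => (f : TR m P h)) := by
      funext f
      exact comb_eq f
    rw [h1]
    exact Function.bijective_id
  mul i j := by rw [comb_eq, ee_mul]

theorem ee_zero : ee h ⟨0, h.pos⟩ = 1 := rfl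

/-- The basis over the field. -/
noncomputable def bas (h : GoodTab k m P) : Module.Basis (Σ _ : Fin s, ℕ) k (TR m P h) :=
  (Pi.basis (fun _ : Fin s => Polynomial.basisMonomials k) :
    Module.Basis (Σ _ : Fin s, ℕ) k (Fin s → k[X]))

/-- The weights. -/
def wt (m : Fin s → ℕ) (x : Σ _ : Fin s, ℕ) : ℕ := s * x.2 + m x.1

theorem bas_repr (f : TR m P h) (x : Σ _ : Fin s, ℕ) : (bas h).repr f x = (f x.1).coeff x.2 := by
  exact Pi.basis_repr (fun _ : Fin s => Polynomial.basisMonomials k) (f : Fin s → k[X]) x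

theorem bas_apply (x : Σ _ : Fin s, ℕ) : bas h x = sgl h x.1 (X ^ x.2) := by
  change (Pi.basis (fun _ : Fin s => Polynomial.basisMonomials k)) x = _
  rw [Pi.basis_apply]
  change (Pi.single x.1 _ : Fin s → k[X]) = Pi.single x.1 (X ^ x.2)
  congr 1
  rw [Polynomial.coe_basisMonomials]
  exact (Polynomial.X_pow_eq_monomial _).symm

theorem bas_apply' (x : Σ _ : Fin s, ℕ) : bas h x = T h ^ x.2 * ee h x.1 := by
  have h1 : T h ^ x.2 = aeval (T h) (X ^ x.2 : k[X]) := by rw [map_pow, aeval_X]
  rw [h1, aeval_T_mul, bas_apply]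
  funext l
  rw [smulX_apply, sgl_apply]
  have h2 : ee h x.1 l = if l = x.1 then 1 else 0 := sgl_apply _ _ _
  rw [h2]
  split_ifs <;> simp

theorem bas_mul_repr (x y z : Σ _ : Fin s, ℕ) : (bas h).repr (bas h x * bas h y) z =
    (X ^ (x.2 + y.2) * P x.1 y.1 z.1).coeff z.2 := by
  rw [bas_repr]
  congr 1
  have h1 : bas h x * bas h y = aeval (T h) (X ^ (x.2 + y.2) : k[X]) * (ee h x.1 * ee h y.1) := by
    rw [bas_apply', bas_apply', map_pow, aeval_X, pow_add]
    ring
  rw [h1, aeval_T_mul, smulX_apply, ee_mul]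

theorem goodBasis (h : GoodTab k m P) : GoodBasis (bas h) (wt m) where
  inj := by
    rintro ⟨j, i⟩ ⟨j', i'⟩ h1
    obtain ⟨h2, h3⟩ := h.inj i j i' j' h1
    subst h2 h3
    rfl
  fin := by
    refine h.fin.subset ?_
    intro n hn i j h0
    exact hn ⟨⟨j, i⟩, h0.symm⟩
  le x y z h0 := by
    rw [bas_mul_repr, coeff_X_pow_mul'] at h0
    split_ifs at h0 with h1
    · have h2 := h.le _ _ _ _ h0
      have h3 : s * z.2 = s * (z.2 - (x.2 + y.2)) + (s * x.2 + s * y.2) := by
        rw [← mul_add, ← mul_add]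
        congr 1
        omega
      unfold wt
      omega
    · exact absurd rfl h0
  top x y := by
    obtain ⟨l, r, h1, h2⟩ := h.top x.1 y.1
    refine ⟨⟨l, r + (x.2 + y.2)⟩, ?_, ?_⟩
    · unfold wt
      have h3 : s * (r + (x.2 + y.2)) = s * r + (s * x.2 + s * y.2) := by ring
      change s * (r + (x.2 + y.2)) + m l = _
      omega
    · rw [bas_mul_repr, coeff_X_pow_mul', if_pos (by change _ ≤ r + (x.2 + y.2); omega)]
      have h3 : (⟨l, r + (x.2 + y.2)⟩ : Σ _ : Fin s, ℕ).2 - (x.2 + y.2) = r := by
        change r + (x.2 + y.2) - (x.2 + y.2) = r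
        omega
      rw [h3]
      exact h2.ne_zero

noncomputable instance : Nontrivial (TR m P h) := by
  refine ⟨⟨0, 1, ?_⟩⟩
  intro h0
  have h1 := congrFun h0 ⟨0, h.pos⟩
  rw [zero_apply, one_apply, if_pos rfl] at h1
  exact zero_ne_one h1

instance : IsDomain (TR m P h) := isDomain_of_goodBasis (goodBasis h)

/-- The degree. -/
noncomputable def dg (h : GoodTab k m P) : TR m P h → ℕ := bdg (bas h) (wt m)

theorem onePt (h : GoodTab k m P) : OnePt k (dg h) := onePt_of_goodBasis (goodBasis h)

theorem gaps_dg (h : GoodTab k m P) : Gaps (dg h) = {n : ℕ | ∀ i j, n ≠ s * i + m j} := by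
  unfold dg
  rw [gaps_bdg (goodBasis h)]
  ext n
  constructor
  · intro hn i j h0
    exact hn ⟨⟨j, i⟩, h0.symm⟩
  · rintro hn ⟨⟨j, i⟩, h0⟩
    exact hn i j h0.symm

theorem dg_mon (i : ℕ) (j : Fin s) : dg h (T h ^ i * ee h j) = s * i + m j := by
  have h1 := bas_apply' (h := h) ⟨j, i⟩
  unfold dg
  change bdg (bas h) (wt m) (T h ^ i * ee h j) = _
  rw [← h1, bdg_basis]
  rfl

/-- The semilinear automorphism. -/
noncomputable def frob (σ : k ≃+* k) (hσ : ∀ i j l, (P i j l).map (σ : k →+* k) = P i j l) :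
    TR m P h ≃+* TR m P h where
  toFun f := (fun j => (f j).map (σ : k →+* k) : Fin s → k[X])
  invFun f := (fun j => (f j).map (σ.symm : k →+* k) : Fin s → k[X])
  left_inv f := by
    funext j
    change ((f j).map (σ : k →+* k)).map (σ.symm : k →+* k) = f j
    rw [Polynomial.map_map]
    have h1 : ((σ.symm : k →+* k).comp (σ : k →+* k)) = RingHom.id k := by
      ext a
      simp
    rw [h1, Polynomial.map_id]
  right_inv f := by
    funext j
    change ((f j).map (σ.symm : k →+* k)).map (σ : k →+* k) = f j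
    rw [Polynomial.map_map]
    have h1 : ((σ : k →+* k).comp (σ.symm : k →+* k)) = RingHom.id k := by
      ext a
      simp
    rw [h1, Polynomial.map_id]
  map_mul' f g := by
    funext l
    change ((f * g) l).map (σ : k →+* k) =
      ∑ i, ∑ j, ((f i).map (σ : k →+* k)) * ((g j).map (σ : k →+* k)) * P i j l
    rw [mul_apply, Polynomial.map_sum]
    refine Finset.sum_congr rfl fun i _ => ?_
    rw [Polynomial.map_sum]
    refine Finset.sum_congr rfl fun j _ => ?_
    rw [Polynomial.map_mul, Polynomial.map_mul, hσ]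
  map_add' f g := by
    funext l
    rw [add_apply, Polynomial.map_add]
    rfl

theorem frob_apply (σ : k ≃+* k) (hσ : ∀ i j l, (P i j l).map (σ : k →+* k) = P i j l)
    (f : TR m P h) (j : Fin s) : frob σ hσ f j = (f j).map (σ : k →+* k) := rfl

theorem frob_smul (σ : k ≃+* k) (hσ : ∀ i j l, (P i j l).map (σ : k →+* k) = P i j l)
    (c : k) (f : TR m P h) : frob σ hσ (c • f) = σ c • frob σ hσ f := by
  funext j
  rw [frob_apply, smul_apply, smul_apply, frob_apply, smul_eq_C_mul, smul_eq_C_mul,
    Polynomial.map_mul, map_C]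
  rfl

theorem frob_dg (σ : k ≃+* k) (hσ : ∀ i j l, (P i j l).map (σ : k →+* k) = P i j l)
    (f : TR m P h) : dg h (frob σ hσ f) = dg h f := by
  have h1 : ((bas h).repr (frob σ hσ f)).support = ((bas h).repr f).support := by
    ext x
    rw [Finsupp.mem_support_iff, Finsupp.mem_support_iff, bas_repr, bas_repr, frob_apply,
      coeff_map]
    constructor
    · intro h2 h3
      apply h2
      rw [h3, map_zero]
    · intro h2 h3
      apply h2
      exact (map_eq_zero _).1 h3
  unfold dg bdg
  rw [h1]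

theorem frob_T (σ : k ≃+* k) (hσ : ∀ i j l, (P i j l).map (σ : k →+* k) = P i j l) :
    frob σ hσ (T h) = T h := by
  funext j
  have h1 : T h j = if j = ⟨0, h.pos⟩ then X else 0 := sgl_apply _ _ _
  rw [frob_apply, h1]
  split_ifs <;> simp

theorem frob_ee (σ : k ≃+* k) (hσ : ∀ i j l, (P i j l).map (σ : k →+* k) = P i j l)
    (l : Fin s) : frob σ hσ (ee h l) = ee h l := by
  funext j
  have h1 : ee h l j = if j = l then 1 else 0 := sgl_apply _ _ _
  rw [frob_apply, h1]
  split_ifs <;> simp

end Pool.H93.OP.TR
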