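import Pool.Agent.H93.OP.Good

/-!
# The ring of a table
-/

set_option autoImplicit false

open Polynomial

namespace Pool.H93.OP

/-- The ring with the multiplication table `P` (as a set: vectors of polynomials). -/
def TR {k : Type} [Field k] {s : ℕ} (m : Fin s → ℕ) (P : Fin s → Fin s → Fin s → k[X])
    (_ : GoodTab k m P) : Type := Fin s → k[X]

namespace TR

variable {k : Type} [Field k] {s : ℕ} {m : Fin s → ℕ} {P : Fin s → Fin s → Fin s → k[X]}
  {h : GoodTab k m P}

noncomputable instance : AddCommGroup (TR m P h) := inferInstanceAs (AddCommGroup (Fin s → k[X]))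

noncomputable instance : Module k[X] (TR m P h) := inferInstanceAs (Module k[X] (Fin s → k[X]))

noncomputable instance : Module k (TR m P h) := inferInstanceAs (Module k (Fin s → k[X]))

noncomputable instance : Mul (TR m P h) :=
  ⟨fun f g => (fun l => ∑ i, ∑ j, (f : Fin s → k[X]) i * (g : Fin s → k[X]) j * P i j l : Fin s → k[X])⟩

noncomputable instance : One (TR m P h) := ⟨(Pi.single ⟨0, h.pos⟩ 1 : Fin s → k[X])⟩

theorem mul_apply (f g : TR m P h) (l : Fin s) :
    (f * g) l = ∑ i, ∑ j, f i * g j * P i j l := rfl

theorem one_apply (l : Fin s) : (1 : TR m P h) l = if l = ⟨0, h.pos⟩ then 1 else 0 := by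
  change (Pi.single ⟨0, h.pos⟩ 1 : Fin s → k[X]) l = _
  rw [Pi.single_apply]

theorem add_apply (f g : TR m P h) (l : Fin s) : (f + g) l = f l + g l := rfl

theorem zero_apply (l : Fin s) : (0 : TR m P h) l = 0 := rfl

theorem smul_apply (c : k) (g : TR m P h) (l : Fin s) : (c • g) l = c • g l := rfl

private theorem mul_comm' (f g : TR m P h) : f * g = g * f := by
  funext l
  rw [mul_apply, mul_apply, Finset.sum_comm]
  refine Finset.sum_congr rfl fun j _ => Finset.sum_congr rfl fun i _ => ?_
  rw [h.comm i j l]
  ring

private theorem mul_assoc' (f g w : TR m P h) : f * g * w = f * (g * w) := by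
  funext l
  simp only [mul_apply]
  have h1 : ∀ (a b c : Fin s), (∑ u, f a * g b * P a b u * w c * P u c l) =
      ∑ u, f a * (g b * w c * P b c u) * P a u l := by
    intro a b c
    have h2 := h.assoc a b c l
    calc (∑ u, f a * g b * P a b u * w c * P u c l)
        = f a * g b * w c * ∑ u, P a b u * P u c l := by
          rw [Finset.mul_sum]
          refine Finset.sum_congr rfl fun u _ => ?_
          ring
      _ = f a * g b * w c * ∑ u, P b c u * P a u l := by rw [h2]
      _ = _ := by
          rw [Finset.mul_sum]
          refine Finset.sum_congr rfl fun u _ => ?_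
          ring
  calc ∑ u, ∑ c, (∑ a, ∑ b, f a * g b * P a b u) * w c * P u c l
      = ∑ u, ∑ c, ∑ a, ∑ b, f a * g b * P a b u * w c * P u c l := by
        refine Finset.sum_congr rfl fun u _ => Finset.sum_congr rfl fun c _ => ?_
        rw [Finset.sum_mul, Finset.sum_mul]
        refine Finset.sum_congr rfl fun a _ => ?_
        rw [Finset.sum_mul, Finset.sum_mul]
    _ = ∑ a, ∑ b, ∑ c, ∑ u, f a * g b * P a b u * w c * P u c l := by
        rw [Finset.sum_comm]
        rw [Finset.sum_congr rfl (fun c _ => Finset.sum_comm)]
        rw [Finset.sum_comm]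
        refine Finset.sum_congr rfl fun a _ => ?_
        rw [Finset.sum_congr rfl (fun c _ => Finset.sum_comm)]
        rw [Finset.sum_comm]
    _ = ∑ a, ∑ b, ∑ c, ∑ u, f a * (g b * w c * P b c u) * P a u l := by
        refine Finset.sum_congr rfl fun a _ => Finset.sum_congr rfl fun b _ =>
          Finset.sum_congr rfl fun c _ => h1 a b c
    _ = ∑ a, ∑ u, ∑ b, ∑ c, f a * (g b * w c * P b c u) * P a u l := by
        refine Finset.sum_congr rfl fun a _ => ?_
        rw [Finset.sum_congr rfl (fun b _ => Finset.sum_comm)]
        rw [Finset.sum_comm]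
    _ = ∑ a, ∑ u, f a * (∑ b, ∑ c, g b * w c * P b c u) * P a u l := by
        refine Finset.sum_congr rfl fun a _ => Finset.sum_congr rfl fun u _ => ?_
        rw [Finset.mul_sum, Finset.sum_mul]
        refine Finset.sum_congr rfl fun b _ => ?_
        rw [Finset.mul_sum, Finset.sum_mul]

private theorem one_mul' (f : TR m P h) : 1 * f = f := by
  funext l
  rw [mul_apply, Finset.sum_eq_single ⟨0, h.pos⟩]
  · rw [one_apply, if_pos rfl, Finset.sum_eq_single l]
    · rw [h.one, if_pos rfl, one_mul, mul_one]
    · intro j _ hj
      rw [h.one, if_neg hj, mul_zero]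
    · intro hl
      exact absurd (Finset.mem_univ l) hl
  · intro i _ hi
    rw [one_apply, if_neg hi]
    simp
  · intro hl
    exact absurd (Finset.mem_univ _) hl

private theorem left_distrib' (f g w : TR m P h) : f * (g + w) = f * g + f * w := by
  funext l
  rw [add_apply, mul_apply, mul_apply, mul_apply, ← Finset.sum_add_distrib]
  refine Finset.sum_congr rfl fun i _ => ?_
  rw [← Finset.sum_add_distrib]
  refine Finset.sum_congr rfl fun j _ => ?_
  rw [add_apply]
  ring

private theorem zero_mul' (f : TR m P h) : 0 * f = 0 := by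
  funext l
  rw [mul_apply, zero_apply]
  simp [zero_apply]

noncomputable instance : CommRing (TR m P h) :=
  { (inferInstance : AddCommGroup (TR m P h)) with
    mul := (· * ·)
    one := 1
    mul_comm := mul_comm'
    mul_assoc := mul_assoc'
    one_mul := one_mul'
    mul_one := fun a => (mul_comm' a 1).trans (one_mul' a)
    left_distrib := left_distrib'
    right_distrib := fun a b c => by
      rw [mul_comm' (a + b) c, left_distrib', mul_comm' c a, mul_comm' c b]
    zero_mul := zero_mul'
    mul_zero := fun a => (mul_comm' a 0).trans (zero_mul' a) }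

noncomputable instance : Algebra k (TR m P h) :=
  Algebra.ofModule
    (fun r x y => by
      funext l
      rw [smul_apply, mul_apply, mul_apply, Finset.smul_sum]
      refine Finset.sum_congr rfl fun i _ => ?_
      rw [Finset.smul_sum]
      refine Finset.sum_congr rfl fun j _ => ?_
      rw [smul_apply, smul_mul_assoc, smul_mul_assoc])
    (fun r x y => by
      funext l
      rw [smul_apply, mul_apply, mul_apply, Finset.smul_sum]
      refine Finset.sum_congr rfl fun i _ => ?_
      rw [Finset.smul_sum]
      refine Finset.sum_congr rfl fun j _ => ?_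
      rw [smul_apply, mul_smul_comm, smul_mul_assoc])

end TR

end Pool.H93.OP
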