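import Pool.Agent.H93.OP.Apery

/-!
# The multiplication table of a one point ring
-/

set_option autoImplicit false

open Polynomial

namespace Pool.H93.OP

section Comb

variable {k R : Type} [Field k] [CommRing R] [Algebra k R] {s : ℕ} {t : R} {e : Fin s → R}

theorem comb_add (f g : Fin s → k[X]) :
    comb k t e (f + g) = comb k t e f + comb k t e g := by
  unfold comb
  rw [← Finset.sum_add_distrib]
  refine Finset.sum_congr rfl fun j _ => ?_
  rw [Pi.add_apply, map_add, add_mul]

theorem comb_mul (q : k[X]) (f : Fin s → k[X]) :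
    comb k t e (fun l => q * f l) = aeval t q * comb k t e f := by
  unfold comb
  rw [Finset.mul_sum]
  refine Finset.sum_congr rfl fun j _ => ?_
  rw [map_mul, mul_assoc]

theorem comb_smul (c : k) (f : Fin s → k[X]) : comb k t e (c • f) = c • comb k t e f := by
  unfold comb
  rw [Finset.smul_sum]
  refine Finset.sum_congr rfl fun j _ => ?_
  rw [Pi.smul_apply, map_smul, smul_mul_assoc]

theorem comb_sum {α : Type} (S : Finset α) (F : α → Fin s → k[X]) :
    comb k t e (fun l => ∑ u ∈ S, F u l) = ∑ u ∈ S, comb k t e (F u) := by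
  unfold comb
  rw [Finset.sum_comm]
  refine Finset.sum_congr rfl fun j _ => ?_
  rw [map_sum, Finset.sum_mul]

theorem comb_single (j : Fin s) (q : k[X]) :
    comb k t e (fun l => if l = j then q else 0) = aeval t q * e j := by
  unfold comb
  rw [Finset.sum_eq_single j]
  · simp only [if_true]
  · intro l _ hl
    simp only [if_neg hl, map_zero, zero_mul]
  · intro hj
    exact absurd (Finset.mem_univ j) hj

/-- `comb` as a linear map. -/
noncomputable def combL (k : Type) {R : Type} [Field k] [CommRing R] [Algebra k R] {s : ℕ} (t : R)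
    (e : Fin s → R) : (Fin s → k[X]) →ₗ[k] R where
  toFun := comb k t e
  map_add' := comb_add
  map_smul' := comb_smul

theorem repr_comb (b : Module.Basis (Σ _ : Fin s, ℕ) k R) (hb : ∀ x, b x = t ^ x.2 * e x.1)
    (f : Fin s → k[X]) :
    b.repr (comb k t e f) = (Pi.basis (fun _ : Fin s => Polynomial.basisMonomials k)).repr f := by
  have h1 : (b.repr : R →ₗ[k] ((Σ _ : Fin s, ℕ) →₀ k)) ∘ₗ combL k t e =
      ((Pi.basis (fun _ : Fin s => Polynomial.basisMonomials k)).repr :
        (Fin s → k[X]) →ₗ[k] ((Σ _ : Fin s, ℕ) →₀ k)) := by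
    refine (Pi.basis (fun _ : Fin s => Polynomial.basisMonomials k)).ext fun x => ?_
    have h2 : (Pi.basis (fun _ : Fin s => Polynomial.basisMonomials k)) x =
        fun l => if l = x.1 then (X ^ x.2 : k[X]) else 0 := by
      rw [Pi.basis_apply]
      funext l
      rw [Pi.single_apply, Polynomial.coe_basisMonomials]
      refine if_congr Iff.rfl ?_ rfl
      exact (Polynomial.X_pow_eq_monomial _).symm
    have h3 : combL k t e ((Pi.basis (fun _ : Fin s => Polynomial.basisMonomials k)) x) = b x := by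
      rw [h2, hb]
      change comb k t e _ = _
      rw [comb_single, map_pow, aeval_X]
    rw [LinearMap.comp_apply, h3]
    change b.repr (b x) = (Pi.basis (fun _ : Fin s => Polynomial.basisMonomials k)).repr
      ((Pi.basis (fun _ : Fin s => Polynomial.basisMonomials k)) x)
    rw [Module.Basis.repr_self, Module.Basis.repr_self]
  exact LinearMap.congr_fun h1 f

theorem repr_comb_apply (b : Module.Basis (Σ _ : Fin s, ℕ) k R) (hb : ∀ x, b x = t ^ x.2 * e x.1)
    (f : Fin s → k[X]) (x : Σ _ : Fin s, ℕ) :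
    b.repr (comb k t e f) x = (f x.1).coeff x.2 := by
  rw [repr_comb b hb, Pi.basis_repr]
  rfl

theorem comb_bijective (b : Module.Basis (Σ _ : Fin s, ℕ) k R)
    (hb : ∀ x, b x = t ^ x.2 * e x.1) : Function.Bijective (comb k t e) := by
  have h1 : comb k t e = fun f => b.repr.symm
      ((Pi.basis (fun _ : Fin s => Polynomial.basisMonomials k)).repr f) := by
    funext f
    rw [← repr_comb b hb, LinearEquiv.symm_apply_apply]
  rw [h1]
  exact b.repr.symm.bijective.comp
    (Pi.basis (fun _ : Fin s => Polynomial.basisMonomials k)).repr.bijective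

end Comb

/-- The multiplication table. -/
theorem exists_table {k R : Type} [Field k] [CommRing R] [IsDomain R] [Algebra k R] {dg : R → ℕ}
    (h : OnePt k dg) (t : R) (ht : 0 < dg t) :
    ∃ (m : Fin (dg t) → ℕ) (e : Fin (dg t) → R)
      (P : Fin (dg t) → Fin (dg t) → Fin (dg t) → k[X]), GoodTab k m P ∧ HasTab k t e P ∧
      e ⟨0, ht⟩ = 1 ∧ (∀ i j, dg (t ^ i * e j) = dg t * i + m j) ∧
      Gaps dg = {n : ℕ | ∀ i j, n ≠ dg t * i + m j} ∧
      ∀ f : Fin (dg t) → k[X], ∀ N : ℕ, dg (comb k t e f) ≤ N ↔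
        ∀ j r, (f j).coeff r ≠ 0 → dg t * r + m j ≤ N := by
  obtain ⟨m, e, b, hm0, he0, hb, hinj, hdg⟩ := exists_basis h t ht
  have hbij := comb_bijective b hb
  choose P hP using fun i j => hbij.2 (e i * e j)
  have hgaps : Gaps dg = {n : ℕ | ∀ i j, n ≠ dg t * i + m j} := by
    ext n
    constructor
    · intro hn i j h0
      refine hn (t ^ i * e j) ?_ ?_
      · rw [← hb ⟨j, i⟩]
        exact b.ne_zero _
      · rw [hdg, ← hb ⟨j, i⟩, bdg_basis, h0]
        rfl
    · intro hn a ha h0
      rw [hdg] at h0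
      obtain ⟨⟨j, i⟩, h3, _⟩ := exists_top (b := b) (w := TR.wt m) a ha
      exact hn i j (h0.symm.trans h3.symm)
  have hcomb : ∀ f : Fin (dg t) → k[X], ∀ N : ℕ, dg (comb k t e f) ≤ N ↔
        ∀ j r, (f j).coeff r ≠ 0 → dg t * r + m j ≤ N := by
    intro f N
    rw [hdg, bdg_le_iff]
    constructor
    · intro h1 j r h2
      exact h1 ⟨j, r⟩ (by rw [repr_comb_apply b hb]; exact h2)
    · rintro h1 ⟨j, r⟩ h2
      rw [repr_comb_apply b hb] at h2
      exact h1 j r h2
  have hej : ∀ j, e j ≠ 0 ∧ dg (e j) = m j := by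
    intro j
    have h1 := hb ⟨j, 0⟩
    change b ⟨j, 0⟩ = t ^ 0 * e j at h1
    rw [pow_zero, one_mul] at h1
    rw [← h1]
    refine ⟨b.ne_zero _, ?_⟩
    rw [hdg, bdg_basis]
    unfold TR.wt
    simp
  have hmul3 : ∀ i j u : Fin (dg t), e i * e j * e u =
      comb k t e (fun l => ∑ v, P i j v * P v u l) := by
    intro i j u
    rw [comb_sum]
    have h1 : ∀ v, comb k t e (fun l => P i j v * P v u l) =
        aeval t (P i j v) * e v * e u := by
      intro v
      rw [comb_mul, hP, mul_assoc]
    simp only [h1]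
    rw [← Finset.sum_mul, ← hP i j]
    rfl
  have hcomm : ∀ i j l, P i j l = P j i l := by
    intro i j l
    have h1 : P i j = P j i := hbij.1 (by rw [hP, hP, mul_comm])
    rw [h1]
  refine ⟨m, e, P, ⟨ht, hcomm, ?_, ?_, hm0, ?_, ?_, ?_, ?_⟩, ⟨hbij, fun i j => (hP i j).symm⟩,
    he0, ?_, hgaps, hcomb⟩
  · intro i j u l
    have h1 : (fun l => ∑ v, P i j v * P v u l) = fun l => ∑ v, P j u v * P i v l := by
      apply hbij.1
      rw [← hmul3 i j u]
      have h2 := hmul3 j u i
      have h3 : (fun l => ∑ v, P j u v * P i v l) = fun l => ∑ v, P j u v * P v i l := by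
        funext l
        refine Finset.sum_congr rfl fun v _ => ?_
        rw [hcomm i v l]
      rw [h3, ← h2]
      ring
    exact congrFun h1 l
  · intro j l
    have h1 : P ⟨0, ht⟩ j = fun l => if l = j then 1 else 0 := by
      apply hbij.1
      rw [hP, comb_single, he0, map_one]
    rw [h1]
    simp only [eq_comm]
  · intro i j i' j' h1
    have h2 : (⟨j, i⟩ : Σ _ : Fin (dg t), ℕ) = ⟨j', i'⟩ := hinj h1
    exact ⟨congrArg Sigma.snd h2, congrArg Sigma.fst h2⟩
  · rw [← hgaps]
    exact h.gaps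
  · intro i j l r h1
    have h2 : dg (e i * e j) = m i + m j := by
      rw [h.mul _ _ (hej i).1 (hej j).1, (hej i).2, (hej j).2]
    rw [← hP] at h2
    exact (hcomb _ _).1 h2.le l r h1
  · intro i j
    have h2 : dg (e i * e j) = m i + m j := by
      rw [h.mul _ _ (hej i).1 (hej j).1, (hej i).2, (hej j).2]
    obtain ⟨⟨l, r⟩, h3, h4⟩ := exists_top (b := b) (w := TR.wt m) (e i * e j)
      (mul_ne_zero (hej i).1 (hej j).1)
    rw [← hP, repr_comb_apply b hb] at h4
    refine ⟨l, r, ?_, h4.isUnit⟩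
    rw [← h2, hdg (e i * e j)]
    exact h3
  · intro i j
    have h1 := hb ⟨j, i⟩
    change b ⟨j, i⟩ = t ^ i * e j at h1
    rw [← h1, hdg, bdg_basis]
    rfl

end Pool.H93.OP
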